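import Pool.Agent.W117.GS.Stm

set_option autoImplicit false

open scoped ContDiff
open MeasureTheory Filter Topology Set

namespace Pool.Agent.W696.GS.G2

open Pool.Agent.Helper676.CS
open Pool.Agent.W117.GS (CB PropG1 PropG2)

section
variable {V W : Type} [NormedAddCommGroup V] [NormedSpace ℝ V] [NormedAddCommGroup W]
  [NormedSpace ℝ W]

theorem cb_succ {n : ℕ} {f : ℝ × ℝ → V} : CB (n + 1) f ↔
    (∃ C, ∀ x, ‖f x‖ ≤ C) ∧ Differentiable ℝ f ∧ CB n (fderiv ℝ f) := by
  unfold CB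
  constructor
  · rintro ⟨h1, h2⟩
    have h1' : ContDiff ℝ ((n : WithTop ℕ∞) + 1) f := by exact_mod_cast h1
    have h3 := contDiff_succ_iff_fderiv.1 h1'
    refine ⟨?_, h3.1, h3.2.2, ?_⟩
    · obtain ⟨C, hC⟩ := h2 0 (Nat.zero_le _)
      exact ⟨C, fun x => by simpa using hC x⟩
    · intro i hi
      obtain ⟨C, hC⟩ := h2 (i + 1) (by omega)
      exact ⟨C, fun x => by rw [norm_iteratedFDeriv_fderiv]; exact hC x⟩
  · rintro ⟨⟨C, hC⟩, hd, h1, h2⟩
    constructor
    · have h3 : ContDiff ℝ ((n : WithTop ℕ∞) + 1) f := by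
        rw [contDiff_succ_iff_fderiv]
        refine ⟨hd, fun h => ?_, h1⟩
        exact absurd h (by simp)
      exact_mod_cast h3
    · intro i hi
      cases i with
      | zero => exact ⟨C, fun x => by simpa using hC x⟩
      | succ i =>
        obtain ⟨C', hC'⟩ := h2 i (by omega)
        exact ⟨C', fun x => by rw [← norm_iteratedFDeriv_fderiv]; exact hC' x⟩

theorem cb_clm {n : ℕ} {f : ℝ × ℝ → V} (L : V →L[ℝ] W) (h : CB n f) :
    CB n (fun x => L (f x)) := by
  refine ⟨L.contDiff.comp h.1, fun i hi => ?_⟩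
  obtain ⟨C, hC⟩ := h.2 i hi
  refine ⟨‖L‖ * C, fun x => ?_⟩
  have h1 := L.norm_iteratedFDeriv_comp_left (f := f) (x := x) (N := (n : WithTop ℕ∞)) (n := i)
    h.1.contDiffAt (by exact_mod_cast hi)
  exact h1.trans (mul_le_mul_of_nonneg_left (hC x) (norm_nonneg _))

theorem cb_add {n : ℕ} {f g : ℝ × ℝ → V} (hf : CB n f) (hg : CB n g) :
    CB n (fun x => f x + g x) := by
  refine ⟨hf.1.add hg.1, fun i hi => ?_⟩
  obtain ⟨C, hC⟩ := hf.2 i hi
  obtain ⟨C', hC'⟩ := hg.2 i hi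
  refine ⟨C + C', fun x => ?_⟩
  have hi' : ((i : ℕ) : WithTop ℕ∞) ≤ (n : WithTop ℕ∞) := by exact_mod_cast hi
  have h1 : iteratedFDeriv ℝ i (fun x => f x + g x) x =
      iteratedFDeriv ℝ i f x + iteratedFDeriv ℝ i g x :=
    fun_iteratedFDeriv_add_apply ((hf.1.of_le hi').contDiffAt) ((hg.1.of_le hi').contDiffAt)
  rw [h1]
  exact (norm_add_le _ _).trans (add_le_add (hC x) (hC' x))

end

theorem hasFDerivAt_Gc {K : ℝ} (hK : 0 < K) {h : ℝ × ℝ → ℝ} {n : ℕ} (hh : CB (n + 1) h)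
    (x : ℝ × ℝ) :
    HasFDerivAt (Gc K h) (∫ y, G K y • fderiv ℝ h (x - y)) x := by
  obtain ⟨⟨C, hC⟩, hd, hf⟩ := cb_succ.1 hh
  obtain ⟨C', hC'⟩ := hf.2 0 (Nat.zero_le _)
  have hC'' : ∀ y, ‖fderiv ℝ h y‖ ≤ C' := fun y => by simpa using hC' y
  have hcf : Continuous (fderiv ℝ h) := hf.1.continuous
  have e : Gc K h = fun x => ∫ y, G K y * h (x - y) := by
    funext x
    rw [Gc_eq, cv_eq]
  rw [e]
  refine hasFDerivAt_integral_of_dominated_of_fderiv_le (𝕜 := ℝ) (s := univ)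
    (F := fun x y => G K y * h (x - y)) (F' := fun x y => G K y • fderiv ℝ h (x - y))
    (bound := fun y => G K y * C') univ_mem ?_ ?_ ?_ ?_ ?_ ?_
  · refine Eventually.of_forall fun x => ?_
    exact (integrable_G hK).aestronglyMeasurable.mul
      (hd.continuous.comp (continuous_const.sub continuous_id)).aestronglyMeasurable
  · exact (integrable_G hK).mul_bdd
      (hd.continuous.comp (continuous_const.sub continuous_id)).aestronglyMeasurable
      (Eventually.of_forall fun y => hC (x - y))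
  · exact (integrable_G hK).aestronglyMeasurable.smul
      (hcf.comp (continuous_const.sub continuous_id)).aestronglyMeasurable
  · refine Eventually.of_forall fun y x _ => ?_
    rw [norm_smul, Real.norm_eq_abs, abs_of_nonneg (G_nonneg _ _)]
    exact mul_le_mul_of_nonneg_left (hC'' _) (G_nonneg _ _)
  · exact (integrable_G hK).mul_const _
  · refine Eventually.of_forall fun y x _ => ?_
    have h1 : HasFDerivAt (fun x => h (x - y)) (fderiv ℝ h (x - y)) x := by
      have h2 := (hd (x - y)).hasFDerivAt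
      have h3 : HasFDerivAt (fun x : ℝ × ℝ => x - y) (ContinuousLinearMap.id ℝ (ℝ × ℝ)) x :=
        (hasFDerivAt_id x).sub_const y
      have h4 := h2.comp x h3
      rw [ContinuousLinearMap.comp_id] at h4
      exact h4
    exact h1.const_mul (G K y)

theorem fderiv_Gc_apply {K : ℝ} (hK : 0 < K) {h : ℝ × ℝ → ℝ} {n : ℕ} (hh : CB (n + 1) h)
    (x e : ℝ × ℝ) : fderiv ℝ (Gc K h) x e = Gc K (fun y => fderiv ℝ h y e) x := by
  obtain ⟨-, hd, hf⟩ := cb_succ.1 hh
  obtain ⟨C', hC'⟩ := hf.2 0 (Nat.zero_le _)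
  have hC'' : ∀ y, ‖fderiv ℝ h y‖ ≤ C' := fun y => by simpa using hC' y
  have hcf : Continuous (fderiv ℝ h) := hf.1.continuous
  rw [(hasFDerivAt_Gc hK hh x).fderiv, Gc_eq, cv_eq]
  have hint : Integrable (fun y => G K y • fderiv ℝ h (x - y)) := by
    refine (integrable_G hK).smul_bdd C'
      (hcf.comp (continuous_const.sub continuous_id)).aestronglyMeasurable
      (Eventually.of_forall fun y => hC'' (x - y))
  rw [ContinuousLinearMap.integral_apply hint]
  rfl

theorem main (h1 : PropG1) : PropG2 := by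
  intro K n h hK hh
  induction n generalizing h with
  | zero =>
    obtain ⟨C, hC⟩ := hh.2 0 le_rfl
    exact h1 K C h hK hh.1.continuous.measurable (fun y => by simpa using hC y)
  | succ n ih =>
    obtain ⟨⟨C, hC⟩, hd, hf⟩ := cb_succ.1 hh
    have hb := h1 K C h hK hd.continuous.measurable hC
    obtain ⟨⟨C2, hC2⟩, -, -⟩ := cb_succ.1 hb
    have hcomp : ∀ e : ℝ × ℝ, CB (n + 1) (Gc K (fun y => fderiv ℝ h y e)) := by
      intro e
      exact ih _ (cb_clm (ContinuousLinearMap.apply ℝ ℝ e) hf)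
    have hfd : fderiv ℝ (Gc K h) = fun x =>
        (ContinuousLinearMap.smulRight (1 : ℝ →L[ℝ] ℝ) (ContinuousLinearMap.fst ℝ ℝ ℝ))
          (Gc K (fun y => fderiv ℝ h y (1, 0)) x) +
        (ContinuousLinearMap.smulRight (1 : ℝ →L[ℝ] ℝ) (ContinuousLinearMap.snd ℝ ℝ ℝ))
          (Gc K (fun y => fderiv ℝ h y (0, 1)) x) := by
      funext x
      ext
      · simp [fderiv_Gc_apply hK hh]
      · simp [fderiv_Gc_apply hK hh]
    rw [cb_succ]
    refine ⟨⟨C2, hC2⟩, fun x => (hasFDerivAt_Gc hK hh x).differentiableAt, ?_⟩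
    rw [hfd]
    exact cb_add (cb_clm _ (hcomp (1, 0))) (cb_clm _ (hcomp (0, 1)))

end Pool.Agent.W696.GS.G2
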